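import Pool.Agent.Helper34.ST.Basic

/-!
Module EMB: embedding lemma (walks in the reduced graph with bounded loads give paths).
-/

set_option autoImplicit false

namespace Pool.Agent.Helper34.ST

open Finset

open Classical in
/-- number of elements of `Y` related to `x` -/
noncomputable def emb_dg {V : Type} (D : V → V → Prop) (x : V) (Y : Finset V) : ℕ :=
  (Y.filter (fun y => D x y)).card

theorem emb_ed {V : Type} (A : V → V → Prop) (X Y : Finset V) :
    ed A X Y = ∑ x ∈ X, emb_dg A x Y := by
  classical
  have h : {p : V × V | p.1 ∈ X ∧ p.2 ∈ Y ∧ A p.1 p.2}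
      = (((X ×ˢ Y).filter (fun p => A p.1 p.2) : Finset (V × V)) : Set (V × V)) := by
    ext p
    simp only [Set.mem_setOf_eq, Finset.coe_filter, Finset.mem_product]
    tauto
  unfold ed
  rw [h, Set.ncard_coe_finset, Finset.card_filter, Finset.sum_product]
  refine Finset.sum_congr rfl fun x _ => ?_
  unfold emb_dg
  rw [Finset.card_filter]

theorem emb_ed' {V : Type} (A : V → V → Prop) (X Y : Finset V) :
    ed A Y X = ∑ x ∈ X, emb_dg (fun a b => A b a) x Y := by
  classical
  have h : {p : V × V | p.1 ∈ Y ∧ p.2 ∈ X ∧ A p.1 p.2}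
      = (((Y ×ˢ X).filter (fun p => A p.1 p.2) : Finset (V × V)) : Set (V × V)) := by
    ext p
    simp only [Set.mem_setOf_eq, Finset.coe_filter, Finset.mem_product]
    tauto
  unfold ed
  rw [h, Set.ncard_coe_finset, Finset.card_filter, Finset.sum_product_right]
  refine Finset.sum_congr rfl fun x _ => ?_
  unfold emb_dg
  rw [Finset.card_filter]

theorem emb_dg_le {V : Type} (D : V → V → Prop) (x : V) (Y : Finset V) : emb_dg D x Y ≤ Y.card := by
  classical
  unfold emb_dg
  exact Finset.card_le_card (Finset.filter_subset _ _)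

/-- one good vertex -/
theorem emb_good {V : Type} (D : V → V → Prop) (PX PY : Finset V) (ε γ : ℝ)
    (h : ∀ X ⊆ PX, ∀ Y ⊆ PY, ε * PX.card ≤ X.card → ε * PY.card ≤ Y.card →
      γ * (X.card * Y.card) ≤ ((∑ x ∈ X, emb_dg D x Y : ℕ) : ℝ))
    (N : Finset V) (hN : N ⊆ PX) (hN1 : N.Nonempty) (hN2 : ε * PX.card ≤ N.card)
    (Y : Finset V) (hY : Y ⊆ PY) (hY2 : ε * PY.card ≤ Y.card) :
    ∃ x ∈ N, γ * Y.card ≤ (emb_dg D x Y : ℝ) := by
  by_contra hcon
  push Not at hcon
  have h1 := h N hN Y hY hN2 hY2
  have h2 : ((∑ x ∈ N, emb_dg D x Y : ℕ) : ℝ) < ∑ x ∈ N, γ * Y.card := by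
    push_cast
    exact Finset.sum_lt_sum_of_nonempty hN1 hcon
  rw [Finset.sum_const, nsmul_eq_mul] at h2
  have h3 : (N.card : ℝ) * (γ * Y.card) = γ * (N.card * Y.card) := by ring
  linarith

/-- number of unused vertices of a class -/
theorem emb_cnt {V κ : Type} [DecidableEq V] (P : κ → Finset V) (η : ℝ)
    (hdis : ∀ i j, i ≠ j → Disjoint (P i) (P j)) (k : ℕ) (W : ℕ → κ)
    (hload : ∀ i, ({t | t ≤ k ∧ W t = i}.ncard : ℝ) ≤ (1 - η) * (P i).card)
    (x : ℕ → V) (n j : ℕ) (hnj : n < j) (hjk : j ≤ k) (hx : ∀ t ≤ n, x t ∈ P (W t)) :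
    η * (P (W j)).card + 1 ≤ ((P (W j) \ (range (n + 1)).image x).card : ℝ) := by
  classical
  have h1 : ((P (W j)) ∩ (range (n + 1)).image x).card
      ≤ ((range (n + 1)).filter (fun t => W t = W j)).card := by
    refine le_trans (Finset.card_le_card ?_) (Finset.card_image_le (f := x))
    intro v hv
    rw [Finset.mem_inter, Finset.mem_image] at hv
    obtain ⟨hv1, t, ht, rfl⟩ := hv
    rw [Finset.mem_image]
    refine ⟨t, ?_, rfl⟩
    rw [Finset.mem_filter]
    refine ⟨ht, ?_⟩
    by_contra hne
    have h2 := hx t (by have := Finset.mem_range.1 ht; omega)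
    exact (Finset.disjoint_left.1 (hdis _ _ hne)) h2 hv1
  have h2 : ((range (n + 1)).filter (fun t => W t = W j)).card + 1
      ≤ {t | t ≤ k ∧ W t = W j}.ncard := by
    have h3 : j ∉ (range (n + 1)).filter (fun t => W t = W j) := by
      intro h
      have := Finset.mem_range.1 (Finset.mem_filter.1 h).1
      omega
    rw [← Finset.card_insert_of_notMem h3, ← Set.ncard_coe_finset]
    refine Set.ncard_le_ncard ?_ ?_
    · intro t ht
      rw [Finset.mem_coe, Finset.mem_insert] at ht
      rcases ht with rfl | ht
      · exact ⟨hjk, rfl⟩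
      · rw [Finset.mem_filter, Finset.mem_range] at ht
        exact ⟨by omega, ht.2⟩
    · exact (Set.finite_Iic k).subset fun t ht => ht.1
  have h3 := hload (W j)
  have h4 : (P (W j) \ (range (n + 1)).image x).card + (P (W j) ∩ (range (n + 1)).image x).card
      = (P (W j)).card := Finset.card_sdiff_add_card_inter _ _
  have h5 : (((P (W j) ∩ (range (n + 1)).image x).card : ℕ) : ℝ) + 1
      ≤ ({t | t ≤ k ∧ W t = W j}.ncard : ℝ) := by
    exact_mod_cast le_trans (Nat.add_le_add_right h1 1) h2
  have h6 : ((P (W j) \ (range (n + 1)).image x).card : ℝ)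
      + ((P (W j) ∩ (range (n + 1)).image x).card : ℝ) = (P (W j)).card := by
    exact_mod_cast h4
  linarith

theorem st_EMB : ST_EMB := by
  classical
  intro V κ _ A P ρ ε γ η hε hε1 hγ hη hεγ hdis hirr hreg σ k W hW hload
  -- the prescribed relation at time `t`
  obtain ⟨D, hD⟩ : ∃ D : ℕ → V → V → Prop, D = fun t a b => if σ t then A a b else A b a := ⟨_, rfl⟩
  have hpair : ∀ t < k, W t ≠ W (t + 1) ∧ ∀ X ⊆ P (W t), ∀ Y ⊆ P (W (t + 1)),
      ε * (P (W t)).card ≤ X.card → ε * (P (W (t + 1))).card ≤ Y.card →
      γ * (X.card * Y.card) ≤ ((∑ x ∈ X, emb_dg (D t) x Y : ℕ) : ℝ) := by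
    intro t ht
    have h1 := hW t (Nat.zero_le _) ht
    by_cases hs : σ t = true
    · rw [if_pos hs] at h1
      have hDt : D t = A := by
        rw [hD]; funext a b; simp only [hs, if_true]
      refine ⟨fun h => hirr _ (by rw [← h] at h1; exact h1), ?_⟩
      intro X hX Y hY hX2 hY2
      rw [hDt, ← emb_ed]
      exact hreg _ _ h1 X hX Y hY hX2 hY2
    · rw [if_neg hs] at h1
      have hDt : D t = fun a b => A b a := by
        rw [hD]; funext a b; simp only [hs]; rfl
      refine ⟨fun h => hirr _ (by rw [← h] at h1; exact h1), ?_⟩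
      intro X hX Y hY hX2 hY2
      rw [hDt, ← emb_ed']
      have h2 := hreg _ _ h1 Y hY X hX hY2 hX2
      have h3 : γ * ((X.card : ℝ) * Y.card) = γ * (Y.card * X.card) := by ring
      rw [h3]
      exact h2
  have hne : ∀ j ≤ k, (P (W j)).Nonempty := by
    intro j hj
    rw [← Finset.card_pos]
    have h1 : 1 ≤ {t | t ≤ k ∧ W t = W j}.ncard := by
      rw [Nat.one_le_iff_ne_zero, Ne, Set.ncard_eq_zero ((Set.finite_Iic k).subset fun t ht => ht.1)]
      intro h
      have : j ∈ ({t | t ≤ k ∧ W t = W j} : Set ℕ) := ⟨hj, rfl⟩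
      rw [h] at this
      exact this
    have h2 := hload (W j)
    have h3 : (1 : ℝ) ≤ ({t | t ≤ k ∧ W t = W j}.ncard : ℝ) := by exact_mod_cast h1
    by_contra hcon
    have h4 : (P (W j)).card = 0 := by omega
    rw [h4] at h2
    simp only [Nat.cast_zero, mul_zero] at h2
    linarith
  have hmain : ∀ n ≤ k, ∃ x : ℕ → V, (∀ s t, s ≤ n → t ≤ n → x s = x t → s = t) ∧
      (∀ t ≤ n, x t ∈ P (W t)) ∧ (∀ t < n, D t (x t) (x (t + 1))) ∧
      (n < k → γ * ((P (W (n + 1)) \ (range (n + 1)).image x).card : ℝ)
        ≤ (emb_dg (D n) (x n) (P (W (n + 1)) \ (range (n + 1)).image x) : ℝ)) := by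
    intro n
    induction n with
    | zero =>
      intro _
      rcases Nat.eq_zero_or_pos k with hk | hk
      · obtain ⟨v, hv⟩ := hne 0 (Nat.zero_le _)
        refine ⟨fun _ => v, ?_, ?_, ?_, ?_⟩
        · intro s t hs ht _; omega
        · intro t ht
          have : t = 0 := by omega
          rw [this]; exact hv
        · intro t ht; omega
        · intro h; omega
      · obtain ⟨hWne, hp⟩ := hpair 0 hk
        have e1 : ε * (P (W 0)).card ≤ (P (W 0)).card := by
          have : (0 : ℝ) ≤ (P (W 0)).card := Nat.cast_nonneg _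
          nlinarith
        have e2 : ε * (P (W (0 + 1))).card ≤ (P (W (0 + 1))).card := by
          have : (0 : ℝ) ≤ (P (W (0 + 1))).card := Nat.cast_nonneg _
          nlinarith
        obtain ⟨v, hv, hv2⟩ := emb_good (D 0) (P (W 0)) (P (W (0 + 1))) ε γ hp (P (W 0))
          (Finset.Subset.refl _) (hne 0 (Nat.zero_le _)) e1 (P (W (0 + 1))) (Finset.Subset.refl _) e2
        refine ⟨fun _ => v, ?_, ?_, ?_, ?_⟩
        · intro s t hs ht _; omega
        · intro t ht
          have : t = 0 := by omega
          rw [this]; exact hv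
        · intro t ht; omega
        · intro _
          have e3 : P (W (0 + 1)) \ (range (0 + 1)).image (fun _ : ℕ => v) = P (W (0 + 1)) := by
            rw [Finset.sdiff_eq_self_iff_disjoint, Finset.disjoint_right]
            intro u hu hu2
            rw [Finset.mem_image] at hu
            obtain ⟨_, _, rfl⟩ := hu
            exact (Finset.disjoint_left.1 (hdis _ _ hWne)) hv hu2
          rw [e3]
          exact hv2
    | succ n ih =>
      intro hn
      obtain ⟨x, hinj, hmem, hwalk, hgood⟩ := ih (by omega)
      have hnk : n < k := by omega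
      have hg := hgood hnk
      have hY1 := emb_cnt P η hdis k W hload x n (n + 1) (by omega) hn hmem
      obtain ⟨Y, hYdef⟩ : ∃ Y, Y = P (W (n + 1)) \ (range (n + 1)).image x := ⟨_, rfl⟩
      rw [← hYdef] at hg hY1
      obtain ⟨N, hNdef⟩ : ∃ N, N = Y.filter (fun y => D n (x n) y) := ⟨_, rfl⟩
      have hNcard : (N.card : ℝ) = (emb_dg (D n) (x n) Y : ℝ) := by
        rw [hNdef]
        unfold emb_dg
        norm_num
      have hNY : N ⊆ Y := by rw [hNdef]; exact Finset.filter_subset _ _
      have hYP : Y ⊆ P (W (n + 1)) := by rw [hYdef]; exact Finset.sdiff_subset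
      have hP0 : (0 : ℝ) ≤ (P (W (n + 1))).card := Nat.cast_nonneg _
      have hYpos : (0 : ℝ) < Y.card := by nlinarith
      have hN1 : ε * (P (W (n + 1))).card ≤ N.card := by
        have h1 : γ * (η * (P (W (n + 1))).card) ≤ γ * Y.card :=
          mul_le_mul_of_nonneg_left (by linarith) hγ.le
        have h2 : ε * (P (W (n + 1))).card ≤ γ * η * (P (W (n + 1))).card :=
          mul_le_mul_of_nonneg_right hεγ hP0
        rw [hNcard]
        linarith
      have hNpos : (0 : ℝ) < N.card := by
        rw [hNcard]
        have : 0 < γ * Y.card := mul_pos hγ hYpos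
        linarith
      have hNne : N.Nonempty := by
        rw [← Finset.card_pos]
        exact_mod_cast hNpos
      -- choice of the new vertex
      have hchoice : ∃ y ∈ N, (n + 1 < k →
          γ * ((P (W (n + 1 + 1)) \ (range (n + 1)).image x).card : ℝ)
            ≤ (emb_dg (D (n + 1)) y (P (W (n + 1 + 1)) \ (range (n + 1)).image x) : ℝ)) := by
        by_cases hk2 : n + 1 < k
        · obtain ⟨hWne, hp⟩ := hpair (n + 1) hk2
          have hY'1 := emb_cnt P η hdis k W hload x n (n + 1 + 1) (by omega) (by omega) hmem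
          obtain ⟨Y', hY'def⟩ : ∃ Y', Y' = P (W (n + 1 + 1)) \ (range (n + 1)).image x := ⟨_, rfl⟩
          rw [← hY'def] at hY'1 ⊢
          have hY'P : Y' ⊆ P (W (n + 1 + 1)) := by rw [hY'def]; exact Finset.sdiff_subset
          have e0 : (0 : ℝ) ≤ (P (W (n + 1 + 1))).card := Nat.cast_nonneg _
          -- gamma is at most one
          have hγ1 : γ ≤ 1 := by
            have e1 : ε * (P (W (n + 1))).card ≤ (P (W (n + 1))).card := by nlinarith
            have e2 : ε * (P (W (n + 1 + 1))).card ≤ (P (W (n + 1 + 1))).card := by nlinarith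
            have e3 := hp _ (Finset.Subset.refl _) _ (Finset.Subset.refl _) e1 e2
            have e4 : ((∑ x ∈ P (W (n + 1)), emb_dg (D (n + 1)) x (P (W (n + 1 + 1))) : ℕ) : ℝ)
                ≤ (P (W (n + 1))).card * (P (W (n + 1 + 1))).card := by
              have : ∑ x ∈ P (W (n + 1)), emb_dg (D (n + 1)) x (P (W (n + 1 + 1)))
                  ≤ ∑ x ∈ P (W (n + 1)), (P (W (n + 1 + 1))).card :=
                Finset.sum_le_sum fun _ _ => emb_dg_le _ _ _
              rw [Finset.sum_const, smul_eq_mul] at this
              exact_mod_cast this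
            have e5 : (0 : ℝ) < (P (W (n + 1))).card := by
              exact_mod_cast Finset.card_pos.2 (hne (n + 1) (by omega))
            have e6 : (0 : ℝ) < (P (W (n + 1 + 1))).card := by
              exact_mod_cast Finset.card_pos.2 (hne (n + 1 + 1) (by omega))
            have e7 : (0 : ℝ) < ((P (W (n + 1))).card : ℝ) * (P (W (n + 1 + 1))).card := mul_pos e5 e6
            by_contra hcon
            push Not at hcon
            nlinarith
          have hεη : ε ≤ η := by nlinarith
          have hY'2 : ε * (P (W (n + 1 + 1))).card ≤ Y'.card := by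
            have : ε * (P (W (n + 1 + 1))).card ≤ η * (P (W (n + 1 + 1))).card :=
              mul_le_mul_of_nonneg_right hεη e0
            linarith
          obtain ⟨y, hy, hy2⟩ := emb_good (D (n + 1)) (P (W (n + 1))) (P (W (n + 1 + 1))) ε γ hp N
            (hNY.trans hYP) hNne hN1 Y' hY'P hY'2
          exact ⟨y, hy, fun _ => hy2⟩
        · obtain ⟨y, hy⟩ := hNne
          exact ⟨y, hy, fun h => absurd h hk2⟩
      obtain ⟨y, hyN, hy2⟩ := hchoice
      have hyY : y ∈ Y := hNY hyN
      have hyP : y ∈ P (W (n + 1)) := hYP hyY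
      have hyD : D n (x n) y := by
        rw [hNdef] at hyN
        exact (Finset.mem_filter.1 hyN).2
      have hynot : ∀ t ≤ n, x t ≠ y := by
        intro t ht h
        rw [hYdef, Finset.mem_sdiff, Finset.mem_image] at hyY
        exact hyY.2 ⟨t, Finset.mem_range.2 (by omega), h⟩
      have hup : ∀ t ≤ n, Function.update x (n + 1) y t = x t := fun t ht =>
        Function.update_of_ne (by omega) _ _
      have hups : Function.update x (n + 1) y (n + 1) = y := Function.update_self _ _ _
      refine ⟨Function.update x (n + 1) y, ?_, ?_, ?_, ?_⟩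
      · intro s t hs ht hst
        rcases Nat.lt_or_ge s (n + 1) with hs1 | hs1
        · rcases Nat.lt_or_ge t (n + 1) with ht1 | ht1
          · rw [hup s (by omega), hup t (by omega)] at hst
            exact hinj s t (by omega) (by omega) hst
          · have ht2 : t = n + 1 := by omega
            rw [ht2, hup s (by omega), hups] at hst
            exact absurd hst (hynot s (by omega))
        · have hs2 : s = n + 1 := by omega
          rcases Nat.lt_or_ge t (n + 1) with ht1 | ht1
          · rw [hs2, hup t (by omega), hups] at hst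
            exact absurd hst.symm (hynot t (by omega))
          · omega
      · intro t ht
        rcases Nat.lt_or_ge t (n + 1) with ht1 | ht1
        · rw [hup t (by omega)]
          exact hmem t (by omega)
        · have ht2 : t = n + 1 := by omega
          rw [ht2, hups]
          exact hyP
      · intro t ht
        rcases Nat.lt_or_ge t n with ht1 | ht1
        · rw [hup t (by omega), hup (t + 1) (by omega)]
          exact hwalk t ht1
        · have ht2 : t = n := by omega
          rw [ht2, hup n (by omega), hups]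
          exact hyD
      · intro hk2
        have hWne := (hpair (n + 1) hk2).1
        have e1 : P (W (n + 1 + 1)) \ (range (n + 1 + 1)).image (Function.update x (n + 1) y)
            = P (W (n + 1 + 1)) \ (range (n + 1)).image x := by
          ext v
          rw [Finset.mem_sdiff, Finset.mem_sdiff, Finset.mem_image, Finset.mem_image]
          constructor
          · rintro ⟨h1, h2⟩
            refine ⟨h1, ?_⟩
            rintro ⟨t, ht, rfl⟩
            rw [Finset.mem_range] at ht
            exact h2 ⟨t, Finset.mem_range.2 (by omega), hup t (by omega)⟩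
          · rintro ⟨h1, h2⟩
            refine ⟨h1, ?_⟩
            rintro ⟨t, ht, rfl⟩
            rw [Finset.mem_range] at ht
            rcases Nat.lt_or_ge t (n + 1) with ht1 | ht1
            · exact h2 ⟨t, Finset.mem_range.2 (by omega), (hup t (by omega)).symm⟩
            · have ht2 : t = n + 1 := by omega
              rw [ht2, hups] at h1
              exact (Finset.disjoint_left.1 (hdis _ _ hWne)) hyP h1
        rw [e1, hups]
        exact hy2 hk2
  obtain ⟨x, hinj, _, hwalk, _⟩ := hmain k (le_refl k)
  refine ⟨x, hinj, ?_⟩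
  intro t _ ht
  have h1 := hwalk t ht
  rw [hD] at h1
  exact h1

end Pool.Agent.Helper34.ST
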